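import Pool.Agent.Helper69.QG.Lg
import Pool.Agent.Helper69.QD.ChA
import Pool.Agent.Helper69.QD.ChB

/-!
Project QG, piece CH: the greatest common divisors of the orders with the smallest (largest) number of
blocks.
-/

set_option autoImplicit false

namespace Pool.Agent.Helper69.QG

open Pool.Agent.Helper69.WV Pool.Agent.Helper53.BN Pool.Agent.Helper69.QB Pool.Agent.Helper69.QC
open Pool.Agent.Helper69.QD

private theorem Ch_C2 (v : ℕ) : ((C2 v : ℕ) : ℝ) = (v : ℝ) * ((v : ℝ) - 1) / 2 := by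
  have h : C2 v = v.choose 2 := (Nat.choose_two_right v).symm
  rw [h]
  exact Nat.cast_choose_two ℝ v

/-- `PX k l M` says `LD k l (l / C2 k) M 0` (`C2_cast`), so `M - 1 ∈ TS` for `1 ≤ M`. -/
theorem ts_of_px {k l M : ℕ} (hk : 2 ≤ k) (hM : 1 ≤ M) (h : PX k l M) :
    M - 1 ∈ TS k l ((l : ℝ) / (C2 k : ℝ)) := by
  obtain ⟨c, hc, hcM⟩ := h
  have h1 : M - 1 + 1 = M := Nat.sub_add_cancel hM
  refine ⟨c, by rw [h1]; exact hc, ?_⟩
  have hk1 : (((k * (k - 1) : ℕ)) : ℝ) = 2 * ((C2 k : ℕ) : ℝ) := by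
    rw [Ch_C2]
    push_cast [Nat.cast_sub (by omega : 1 ≤ k)]
    ring
  have hM1 : (((M * (M - 1) : ℕ)) : ℝ) = 2 * ((C2 M : ℕ) : ℝ) := by
    rw [Ch_C2]
    push_cast [Nat.cast_sub hM]
    ring
  have hC : 0 < ((C2 k : ℕ) : ℝ) := by
    rw [Ch_C2]
    have h2 : (2 : ℝ) ≤ k := by exact_mod_cast hk
    nlinarith
  have h3 : (c : ℝ) * (((k * (k - 1) : ℕ)) : ℝ) = (l : ℝ) * (((M * (M - 1) : ℕ)) : ℝ) := by
    exact_mod_cast hcM
  rw [hk1, hM1] at h3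
  rw [h1, add_zero, div_mul_eq_mul_div, eq_div_iff hC.ne']
  linarith

/-- Let `d` be the gcd. Take `M1` from `choose_A k l 1 2`, so `d ∣ M1 - 1`. If `k` is even or `v` odd, take
`M2` from `choose_A k l (M1 - 1) 2`, otherwise from `choose_B k l (M1 - 1) 2`. Then `d ∣ M2 - 1` and
`(M2 - 1) u + 1 = v mod M2 (M1 - 1)`, hence mod `d`, so `d ∣ v - 1`. -/
theorem gcd_low (k l : ℕ) (hk : 3 ≤ k) (hl : 1 ≤ l) (v : ℕ) (hv : 0 < v)
    (h : k - 1 ∣ l * (v - 1)) : Nat.setGcd (TS k l ((l : ℝ) / (C2 k : ℝ))) ∣ v - 1 := by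
  obtain ⟨M1, hM1, hP1, -⟩ := choose_A k l 1 2 hk hl one_pos
  have hd1 : Nat.setGcd (TS k l ((l : ℝ) / (C2 k : ℝ))) ∣ M1 - 1 :=
    Nat.setGcd_dvd_of_mem (ts_of_px (by omega) (by omega) hP1)
  obtain ⟨M2, hM2, hP2, u, hu⟩ : ∃ M2, 2 ≤ M2 ∧ PX k l M2 ∧
      ∃ u, (M2 - 1) * u + 1 ≡ v [MOD M2 * (M1 - 1)] := by
    by_cases hc : Even k ∨ Odd v
    · obtain ⟨M, hM, hP, hu⟩ := choose_A k l (M1 - 1) 2 hk hl (by omega)
      exact ⟨M, hM, hP, hu v hv h hc⟩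
    · rw [not_or, Nat.not_even_iff_odd, Nat.not_odd_iff_even] at hc
      obtain ⟨M, hM, hP, hu⟩ := choose_B k l (M1 - 1) 2 hk hc.1 hl (by omega)
      exact ⟨M, hM, hP, hu v hv h hc.2⟩
  have hd2 : Nat.setGcd (TS k l ((l : ℝ) / (C2 k : ℝ))) ∣ M2 - 1 :=
    Nat.setGcd_dvd_of_mem (ts_of_px (by omega) (by omega) hP2)
  have h1 := hu.of_dvd (hd1.trans (Dvd.intro_left M2 rfl))
  have h2 : (M2 - 1) * u + 1 ≡ 0 + 1
      [MOD Nat.setGcd (TS k l ((l : ℝ) / (C2 k : ℝ)))] :=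
    ((Nat.modEq_zero_iff_dvd.2 (hd2.mul_right u))).add_right 1
  exact (Nat.modEq_iff_dvd' hv).1 (h2.symm.trans h1)

end Pool.Agent.Helper69.QG
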