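import Mathlib.Data.Finset.Lattice.Fold
import Mathlib.Data.Nat.ModEq
import Mathlib.Tactic

/-!
Project QG, piece EX: increasing families of sets are eventually constant on a finite part.
-/

set_option autoImplicit false

namespace Pool.Agent.Helper69.QG

/-- Proof. `S r = {e | ∃ h, h0 ≤ h ∧ D h ∧ h % W = r ∧ P h e}`, `E r` = the `e < A` which are not in `S r`.
For `r < W`, `e < A` with `e ∈ S r` choose `h` and `t0` from `hext` and let `V r e = W t0 + h`, otherwise
`V r e = 0`; `v₀ = h0 + ∑ r < W, ∑ e < A, V r e`. If `v₀ ≤ v`, `D v`, `e < A`: `P v e` gives `e ∈ S (v % W)`.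
Conversely, if `e ∈ S (v % W)`, then `v = h mod W` and `W t0 + h ≤ v`, so `v = W t + h` with `t0 ≤ t`, and
`P v e`. -/
theorem extract {W A h0 : ℕ} (hW : 0 < W) (P : ℕ → ℕ → Prop) (D : ℕ → Prop)
    (hext : ∀ h, h0 ≤ h → D h → ∃ t0, ∀ t, t0 ≤ t → ∀ e, P h e → P (W * t + h) e) :
    ∃ (v₀ : ℕ) (E : ℕ → Finset ℕ), ∀ v, v₀ ≤ v → D v → ∀ e, e < A →
      (P v e ↔ e ∉ E (v % W)) := by
  classical
  -- the bound for a residue and an element of the union
  have hV : ∀ r e : ℕ, ∃ n : ℕ, (∃ h, h0 ≤ h ∧ D h ∧ h % W = r ∧ P h e) →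
      ∀ v, n ≤ v → v % W = r → P v e := by
    intro r e
    by_cases hS : ∃ h, h0 ≤ h ∧ D h ∧ h % W = r ∧ P h e
    · obtain ⟨h, hh0, hD, hr, hP⟩ := hS
      obtain ⟨t0, ht0⟩ := hext h hh0 hD
      refine ⟨W * t0 + h, fun _ v hv hvr => ?_⟩
      have hle : h ≤ v := (Nat.le_add_left h (W * t0)).trans hv
      have hmod : h ≡ v [MOD W] := by
        unfold Nat.ModEq
        rw [hr, hvr]
      obtain ⟨t, ht⟩ := (Nat.modEq_iff_dvd' hle).mp hmod
      have hveq : v = W * t + h := by omega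
      have htt : t0 ≤ t := by
        by_contra hlt
        have hlt' : t < t0 := Nat.lt_of_not_le hlt
        have h1 : W * t < W * t0 := Nat.mul_lt_mul_of_pos_left hlt' hW
        omega
      rw [hveq]
      exact ht0 t htt e hP
    · exact ⟨0, fun h => absurd h hS⟩
  choose V hV using hV
  refine ⟨h0 + ∑ r ∈ Finset.range W, ∑ e ∈ Finset.range A, V r e,
    fun r => (Finset.range A).filter
      (fun e => ¬ ∃ h, h0 ≤ h ∧ D h ∧ h % W = r ∧ P h e), ?_⟩
  intro v hv hDv e he
  have hvh : h0 ≤ v := (Nat.le_add_right _ _).trans hv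
  constructor
  · intro hP hmem
    exact (Finset.mem_filter.mp hmem).2 ⟨v, hvh, hDv, rfl, hP⟩
  · intro hne
    have hex : ∃ h, h0 ≤ h ∧ D h ∧ h % W = v % W ∧ P h e := by
      by_contra hno
      exact hne (Finset.mem_filter.mpr ⟨Finset.mem_range.mpr he, hno⟩)
    refine hV (v % W) e hex v ?_ rfl
    have h1 : V (v % W) e ≤ ∑ e ∈ Finset.range A, V (v % W) e :=
      Finset.single_le_sum (f := fun e => V (v % W) e) (fun _ _ => Nat.zero_le _)
        (Finset.mem_range.mpr he)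
    have h2 : ∑ e ∈ Finset.range A, V (v % W) e
        ≤ ∑ r ∈ Finset.range W, ∑ e ∈ Finset.range A, V r e :=
      Finset.single_le_sum (f := fun r => ∑ e ∈ Finset.range A, V r e)
        (fun _ _ => Nat.zero_le _) (Finset.mem_range.mpr (Nat.mod_lt v hW))
    omega

end Pool.Agent.Helper69.QG
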