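import Pool.Agent.Helper69.QG.TopC
import Pool.Agent.Helper69.QG.Ch
import Pool.Agent.Helper69.QG.Ex
import Pool.Agent.Helper69.QD.Low
import Pool.Agent.Helper69.QC.Local

/-!
Project QG: the exact sets of the numbers of blocks for large orders.
-/

set_option autoImplicit false

namespace Pool.Agent.Helper69.QG

open Pool.Agent.Helper69.WV Pool.Agent.Helper53.BN Pool.Agent.Helper69.QB Pool.Agent.Helper69.QC
open Pool.Agent.Helper69.QD

theorem c2_pos {k : ℕ} (hk : 2 ≤ k) : 0 < C2 k := by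
  unfold C2
  have h1 : 2 * 1 ≤ k * (k - 1) := Nat.mul_le_mul hk (by omega)
  exact Nat.div_pos (by omega) two_pos

/-- `LD` for the lower end in terms of natural numbers. -/
theorem ld_low {k l v e : ℕ} (hk : 2 ≤ k) :
    LD k l ((l : ℝ) / (C2 k : ℝ)) v ((e : ℝ) / (C2 k : ℝ)) ↔
      ∃ b, NB k l v b ∧ b * C2 k = l * C2 v + e := by
  have hC : (C2 k : ℝ) ≠ 0 := by exact_mod_cast (c2_pos hk).ne'
  constructor
  · rintro ⟨b, hb, hbe⟩
    refine ⟨b, hb, ?_⟩
    have h1 : (b : ℝ) * (C2 k : ℝ) = l * ((C2 v : ℕ) : ℝ) + e := by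
      rw [hbe]
      field_simp
    exact_mod_cast h1
  · rintro ⟨b, hb, hbe⟩
    refine ⟨b, hb, ?_⟩
    have h1 : (b : ℝ) * (C2 k : ℝ) = l * ((C2 v : ℕ) : ℝ) + e := by exact_mod_cast hbe
    field_simp
    linarith

/-- `LD` for the upper end in terms of natural numbers. -/
theorem ld_top {k l v e p q : ℕ} {β : ℝ} (hq : 0 < q) (hβ : β = (p : ℝ) / q) :
    LD k l β v (-((e : ℝ) / (q : ℝ))) ↔ ∃ b, NB k l v b ∧ q * b + e = p * C2 v := by
  have hq' : (q : ℝ) ≠ 0 := by exact_mod_cast hq.ne'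
  subst hβ
  constructor
  · rintro ⟨b, hb, hbe⟩
    refine ⟨b, hb, ?_⟩
    have h1 : (q : ℝ) * b + e = p * ((C2 v : ℕ) : ℝ) := by
      rw [hbe]
      field_simp
      ring
    exact_mod_cast h1
  · rintro ⟨b, hb, hbe⟩
    refine ⟨b, hb, ?_⟩
    have h1 : (q : ℝ) * b + e = p * ((C2 v : ℕ) : ℝ) := by exact_mod_cast hbe
    field_simp
    linarith

/-- The lower end: for large `v` with `k - 1 ∣ l (v - 1)` the numbers of blocks are all integers above
the lower bound except those whose distance from it is in a finite set which depends on `v mod W`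
only. -/
theorem full_low (k l : ℕ) (hk : 3 ≤ k) (hl : 2 ≤ l) :
    ∃ (W A v₀ : ℕ) (E : ℕ → Finset ℕ), 0 < W ∧ ∀ v, v₀ ≤ v → k - 1 ∣ l * (v - 1) → ∀ b : ℕ,
      (b : ℝ) ≤ beta k l * ((C2 v : ℕ) : ℝ) - (A : ℝ) * v →
      (NB k l v b ↔ l * C2 v ≤ b * C2 k ∧ b * C2 k - l * C2 v ∉ E (v % W)) := by
  have hk2 : 2 ≤ k := by omega
  obtain ⟨m, s0, s1, hmp, hm2, -, hs0, hs1, -, he0, -⟩ := perfect_pair k l hk hl 2
  obtain ⟨W, N, h0, hW, -, -, hext⟩ := ext_gen hk2 hm2 hs0 hs1 he0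
  obtain ⟨C, v1, hsh⟩ := sharp k l hk hl
  obtain ⟨v2, E, hE⟩ := extract (A := C * C2 k) (h0 := h0 + 1) hW
    (fun v e => ∃ b, NB k l v b ∧ b * C2 k = l * C2 v + e) (fun v => k - 1 ∣ l * (v - 1)) (by
      intro h hh hd
      obtain ⟨t0, ht0⟩ := hext h (by omega) (gcd_low k l hk (by omega) h (by omega) hd)
      refine ⟨t0, fun t ht e he => ?_⟩
      have h1 := ht0 t ht _ ((ld_low hk2).2 he) 0 (by rw [Nat.zero_mul]; exact Nat.zero_le _)
      rw [Nat.cast_zero, zero_mul, mul_zero, add_zero] at h1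
      exact (ld_low hk2).1 h1)
  refine ⟨W, C, v1 + v2 + 1, fun r => (E r).filter (· < C * C2 k), hW,
    fun v hv hd b hb => ?_⟩
  have hCp := c2_pos hk2
  have hCr : (0 : ℝ) < (C2 k : ℝ) := by exact_mod_cast hCp
  have hadm : Adm k l v := adm_of_mul (by omega) hd
  constructor
  · intro hN
    have h1 : l * C2 v ≤ b * C2 k := by
      have := nb_local (d := 0) hk2 (by omega) hN (fun e he => absurd he (Nat.not_lt_zero e))
      rwa [Nat.zero_mul, Nat.add_zero] at this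
    refine ⟨h1, fun hmem => ?_⟩
    have h2 := Finset.mem_filter.1 hmem
    exact (hE v (by omega) hd _ h2.2).1 ⟨b, hN, by omega⟩ h2.1
  · rintro ⟨h1, h2⟩
    by_cases he : b * C2 k - l * C2 v < C * C2 k
    · have h3 : b * C2 k - l * C2 v ∉ E (v % W) := fun h => h2 (Finset.mem_filter.2 ⟨h, he⟩)
      obtain ⟨b', hb', hbe⟩ := (hE v (by omega) hd _ he).2 h3
      have h4 : b' * C2 k = b * C2 k := by omega
      rwa [Nat.eq_of_mul_eq_mul_right hCp h4] at hb'
    · refine hsh v (by omega) hadm b ?_ (hb.trans ?_)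
      · rw [e0, if_pos hd, Nat.cast_one, mul_one]
        have h3 : l * C2 v + C * C2 k ≤ b * C2 k := by omega
        have h4 : (l : ℝ) * ((C2 v : ℕ) : ℝ) + C * (C2 k : ℝ) ≤ b * (C2 k : ℝ) := by
          exact_mod_cast h3
        have h5 : ((l : ℝ) / (C2 k : ℝ) * ((C2 v : ℕ) : ℝ) + C) * (C2 k : ℝ) ≤ b * (C2 k : ℝ) := by
          calc ((l : ℝ) / (C2 k : ℝ) * ((C2 v : ℕ) : ℝ) + C) * (C2 k : ℝ)
              = (l : ℝ) * ((C2 v : ℕ) : ℝ) + C * (C2 k : ℝ) := by field_simp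
            _ ≤ _ := h4
        exact le_of_mul_le_mul_right h5 hCr
      · have h3 : ((e1 k l v : ℕ) : ℝ) ≤ v := by
          unfold e1
          split_ifs
          · exact_mod_cast (by omega : 1 ≤ v)
          · exact le_rfl
        have h4 := mul_le_mul_of_nonneg_left h3 (Nat.cast_nonneg C : (0 : ℝ) ≤ C)
        linarith

/-- The optimum is a rational number. -/
theorem beta_rat (k l : ℕ) (hk : 2 ≤ k) : ∃ p q : ℕ, 0 < q ∧ beta k l = (p : ℝ) / q := by
  obtain ⟨z, y, hF, hzy⟩ := QC.beta_attained k l hk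
  refine ⟨∑ a, z a, ∑ p, y p, hF.2.1, ?_⟩
  have h1 : ((∑ p, y p : ℕ) : ℝ) ≠ 0 := by exact_mod_cast hF.2.1.ne'
  rw [hzy]
  field_simp

/-- The upper end. -/
theorem full_top (k l : ℕ) (hk : 3 ≤ k) (hl : 2 ≤ l) {p q : ℕ} (hq : 0 < q)
    (hβ : beta k l = (p : ℝ) / q) :
    ∃ (W A v₀ : ℕ) (F : ℕ → Finset ℕ), 0 < W ∧ ∀ v, v₀ ≤ v →
      Nat.setGcd (TS k l (beta k l)) ∣ v - 1 → ∀ b : ℕ,
      (l : ℝ) / (C2 k : ℝ) * ((C2 v : ℕ) : ℝ) + (A : ℝ) * v ≤ b →
      (NB k l v b ↔ q * b ≤ p * C2 v ∧ p * C2 v - q * b ∉ F (v % W)) := by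
  have hk2 : 2 ≤ k := by omega
  obtain ⟨m, s0, s1, hmp, hm2, -, hs0, hs1, -, -, he1⟩ := perfect_pair k l hk hl 2
  obtain ⟨W, N, h0, hW, -, -, hext⟩ := ext_gen hk2 hm2 hs1 hs0 he1
  obtain ⟨C, v1, hsh⟩ := sharp k l hk hl
  obtain ⟨C', v3, htop⟩ := top_cofinite k l hk hl C
  obtain ⟨v2, F, hF⟩ := extract (A := q * C') (h0 := h0 + 1) hW
    (fun v e => ∃ b, NB k l v b ∧ q * b + e = p * C2 v)
    (fun v => Nat.setGcd (TS k l (beta k l)) ∣ v - 1) (by
      intro h hh hd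
      obtain ⟨t0, ht0⟩ := hext h (by omega) hd
      refine ⟨t0, fun t ht e he => ?_⟩
      have h1 := ht0 t ht _ ((ld_top hq hβ).2 he) 0 (by rw [Nat.zero_mul]; exact Nat.zero_le _)
      rw [Nat.cast_zero, zero_mul, mul_zero, add_zero] at h1
      exact (ld_top hq hβ).1 h1)
  refine ⟨W, C, v1 + v2 + v3 + 2, fun r => (F r).filter (· < q * C'), hW,
    fun v hv hd b hb => ?_⟩
  have hqr : (0 : ℝ) < (q : ℝ) := by exact_mod_cast hq
  have hadm : Adm k l v := adm_of_gcd hk2 hd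
  have hβq : beta k l * q = p := by
    rw [hβ]
    field_simp
  constructor
  · intro hN
    have h1 : q * b ≤ p * C2 v := by
      have h2 := nb_le_beta hk2 (by omega) hN
      have h3 : (q : ℝ) * b ≤ p * ((C2 v : ℕ) : ℝ) := by
        calc (q : ℝ) * b ≤ q * (beta k l * ((C2 v : ℕ) : ℝ)) :=
              mul_le_mul_of_nonneg_left h2 hqr.le
          _ = _ := by rw [← hβq]; ring
      exact_mod_cast h3
    refine ⟨h1, fun hmem => ?_⟩
    have h2 := Finset.mem_filter.1 hmem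
    exact (hF v (by omega) hd _ h2.2).1 ⟨b, hN, by omega⟩ h2.1
  · rintro ⟨h1, h2⟩
    by_cases he : p * C2 v - q * b < q * C'
    · have h3 : p * C2 v - q * b ∉ F (v % W) := fun h => h2 (Finset.mem_filter.2 ⟨h, he⟩)
      obtain ⟨b', hb', hbe⟩ := (hF v (by omega) hd _ he).2 h3
      have h4 : q * b' = q * b := by omega
      rwa [Nat.eq_of_mul_eq_mul_left hq h4] at hb'
    · have h5 : (b : ℝ) ≤ beta k l * ((C2 v : ℕ) : ℝ) - C' := by
        have h3 : q * b + q * C' ≤ p * C2 v := by omega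
        have h4 : (q : ℝ) * b + q * C' ≤ p * ((C2 v : ℕ) : ℝ) := by exact_mod_cast h3
        rw [← hβq] at h4
        nlinarith
      by_cases hC : beta k l * ((C2 v : ℕ) : ℝ) - (C : ℝ) * v ≤ b
      · exact htop v (by omega) hd b hC h5
      · have hvr : (1 : ℝ) ≤ v := by exact_mod_cast (by omega : 1 ≤ v)
        refine hsh v (by omega) hadm b (le_trans ?_ hb) ((not_le.1 hC).le.trans ?_)
        · have h3 : ((e0 k l v : ℕ) : ℝ) ≤ v := by
            unfold e0
            split_ifs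
            · exact_mod_cast (by omega : 1 ≤ v)
            · exact le_rfl
          have h4 := mul_le_mul_of_nonneg_left h3 (Nat.cast_nonneg C : (0 : ℝ) ≤ C)
          linarith
        · have h3 : ((e1 k l v : ℕ) : ℝ) ≤ v := by
            unfold e1
            split_ifs
            · exact_mod_cast (by omega : 1 ≤ v)
            · exact le_rfl
          have h4 := mul_le_mul_of_nonneg_left h3 (Nat.cast_nonneg C : (0 : ℝ) ≤ C)
          linarith

/-- The error at the upper end, without the constant. -/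
noncomputable def e2 (k l v : ℕ) : ℕ := if Nat.setGcd (TS k l (beta k l)) ∣ v - 1 then 1 else v

/-- The theorem for fixed block size and concurrence, with a bounded window at the upper end for all
`v` such that `v - 1` is divisible by the gcd. -/
theorem sharp2 (k l : ℕ) (hk : 3 ≤ k) (hl : 2 ≤ l) : ∃ C v₀ : ℕ, ∀ v, v₀ ≤ v → Adm k l v →
    ∀ b : ℕ, (l : ℝ) / (C2 k : ℝ) * ((C2 v : ℕ) : ℝ) + C * e0 k l v ≤ b →
    (b : ℝ) ≤ beta k l * ((C2 v : ℕ) : ℝ) - C * e2 k l v → NB k l v b := by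
  obtain ⟨C, v1, hsh⟩ := sharp k l hk hl
  obtain ⟨C', v3, htop⟩ := top_cofinite k l hk hl C
  have hlt := lt_beta k l hk hl
  obtain ⟨n0, hn0⟩ := quad ((beta k l - (l : ℝ) / (C2 k : ℝ)) / 2)
    ((beta k l - (l : ℝ) / (C2 k : ℝ)) / 2 + C + C) 0 (by linarith)
  refine ⟨max C C', v1 + v3 + n0 + 1, fun v hv hadm b hb1 hb2 => ?_⟩
  have hvr : (1 : ℝ) ≤ v := by exact_mod_cast (by omega : 1 ≤ v)
  have hC : (C : ℝ) ≤ (max C C' : ℕ) := by exact_mod_cast le_max_left _ _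
  have hC' : (C' : ℝ) ≤ (max C C' : ℕ) := by exact_mod_cast le_max_right _ _
  have hC0 : (0 : ℝ) ≤ C := Nat.cast_nonneg _
  have h1 : ((e1 k l v : ℕ) : ℝ) ≤ v := by
    unfold e1
    split_ifs
    · rw [Nat.cast_one]
      exact hvr
    · exact le_rfl
  have h1' := mul_le_mul_of_nonneg_left h1 hC0
  have hlow : (l : ℝ) / (C2 k : ℝ) * ((C2 v : ℕ) : ℝ) + C * e0 k l v ≤ b := by
    have := mul_le_mul_of_nonneg_right hC (Nat.cast_nonneg (e0 k l v) : (0 : ℝ) ≤ _)
    linarith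
  by_cases hbig : (b : ℝ) ≤ beta k l * ((C2 v : ℕ) : ℝ) - (C : ℝ) * v
  · exact hsh v (by omega) hadm b hlow (by linarith)
  · unfold e2 at hb2
    split_ifs at hb2 with hg
    · rw [Nat.cast_one, mul_one] at hb2
      exact htop v (by omega) hg b (not_le.1 hbig).le (by linarith)
    · exfalso
      apply hbig
      have := mul_le_mul_of_nonneg_right hC (by linarith : (0 : ℝ) ≤ v)
      linarith

end Pool.Agent.Helper69.QG
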