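import Pool.Agent.Helper69.QG.Defs

/-!
Project QG, piece GF: two explicit designs with block size four and concurrence two.
-/

set_option autoImplicit false

namespace Pool.Agent.Helper69.QG

open Pool.Agent.Helper69.WV Pool.Agent.Helper53.BN Pool.Agent.Helper69.QB Pool.Agent.Helper69.QC

private theorem Six_cc {m n : ℕ} (f : Fin m → Fin 4 → Fin n) (x y : Fin n) :
    cc f x y = (Finset.univ.filter
      (fun p : Fin m × Fin 4 × Fin 4 => f p.1 p.2.1 = x ∧ f p.1 p.2.2 = y)).card := by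
  unfold cc
  rw [Nat.card_eq_fintype_card, Fintype.card_subtype]

private def Six_f : Fin 6 → Fin 4 → Fin 6 :=
  ![![0, 0, 1, 3], ![4, 4, 1, 3], ![1, 1, 2, 5], ![3, 3, 2, 5], ![2, 2, 0, 4], ![5, 5, 0, 4]]

private def Six_g : Fin 18 → Fin 4 → Fin 10 :=
  ![![1, 1, 0, 8], ![3, 3, 0, 8], ![0, 0, 2, 5], ![7, 7, 2, 5], ![0, 0, 4, 7], ![0, 0, 6, 9],
    ![8, 8, 4, 7], ![8, 8, 2, 6], ![3, 3, 2, 6], ![8, 8, 5, 9], ![3, 3, 5, 9], ![4, 4, 1, 3],
    ![7, 7, 1, 3], ![7, 7, 6, 9], ![1, 1, 2, 9], ![4, 4, 2, 9], ![1, 1, 5, 6], ![4, 4, 5, 6]]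

/-- The blocks are `a a b c` (the point `a` twice) for `(a, b, c)` =
`(0,1,3), (4,1,3), (1,2,5), (3,2,5), (2,0,4), (5,0,4)`. `cc` is a `Nat.card`; write it with `Fintype.card`
(`Nat.card_eq_fintype_card`, `Fintype.card_subtype`) and `decide` (or count with a Boolean function and `decide`). -/
theorem nb_six : NB 4 2 6 6 := by
  refine ⟨Fin 6, inferInstance, Six_f, ?_, ?_, ?_, by simp⟩
  · decide +kernel
  · intro x y hxy
    rw [Six_cc]
    revert x y
    decide +kernel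
  · intro x y h1 h2
    exact absurd h2 h1

/-- The blocks are `a a b c` for `(a, b, c)` = `(1,0,8), (3,0,8), (0,2,5), (7,2,5), (0,4,7), (0,6,9), (8,4,7),
(8,2,6), (3,2,6), (8,5,9), (3,5,9), (4,1,3), (7,1,3), (7,6,9), (1,2,9), (4,2,9), (1,5,6), (4,5,6)`. -/
theorem nb_ten : NB 4 2 10 18 := by
  refine ⟨Fin 18, inferInstance, Six_g, ?_, ?_, ?_, by simp⟩
  · decide +kernel
  · intro x y hxy
    rw [Six_cc]
    revert x y
    decide +kernel
  · intro x y h1 h2
    exact absurd h2 h1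

end Pool.Agent.Helper69.QG
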