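import Pool.Agent.Helper69.QG.Lg
import Pool.Agent.Helper69.QG.Six
import Pool.Agent.Helper69.QE.Vals
import Pool.Agent.Helper69.QC.SubTriv

/-!
Project QG, piece GT: small orders with the largest number of blocks.
-/

set_option autoImplicit false

namespace Pool.Agent.Helper69.QG

open Pool.Agent.Helper69.WV Pool.Agent.Helper53.BN Pool.Agent.Helper69.QB Pool.Agent.Helper69.QC
open Pool.Agent.Helper69.QE

private theorem Gt_C2_cast (v : ℕ) : ((C2 v : ℕ) : ℝ) = (v : ℝ) * ((v : ℝ) - 1) / 2 := by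
  have h : C2 v = v.choose 2 := (Nat.choose_two_right v).symm
  rw [h]
  exact Nat.cast_choose_two ℝ v

/-- `q` copies of the blocks `x, ..., x, y` for every pair: `sub_triv` with `n = 1` or `n = 2` (`nb_one`, `nb_two`). -/
theorem nb_triv {k : ℕ} (hk : 2 ≤ k) (q v : ℕ) : NB k (q * (k - 1)) v (q * C2 v) := by
  rcases Nat.eq_zero_or_pos v with rfl | hv
  · exact nb_small k _ (by omega)
  · have h1 := sub_triv hk (Dvd.intro_left q rfl : k - 1 ∣ q * (k - 1)) (show 1 ≤ v from hv)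
      (nb_one k (q * (k - 1)))
    have h2 : q * (k - 1) / (k - 1) = q := Nat.mul_div_cancel q (by omega)
    have h3 : C2 1 = 0 := rfl
    rw [h2, h3, Nat.sub_zero, zero_add, mul_comm (C2 v) q] at h1
    exact h1

/-- `v = 2`: `nb_triv`, `beta_eq`, so `1 ∈ TS`. -/
theorem gt_triv {k l : ℕ} (hk : 2 ≤ k) (h : k - 1 ∣ l) :
    Nat.setGcd (TS k l (beta k l)) = 1 := by
  obtain ⟨q, rfl⟩ := h
  refine Nat.dvd_one.1 (Nat.setGcd_dvd_of_mem ?_)
  have h1 := nb_triv hk q 2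
  rw [mul_comm q (k - 1)] at h1
  refine ⟨q * C2 2, h1, ?_⟩
  have h2 := beta_eq k ((k - 1) * q) hk (Dvd.intro q rfl)
  have h3 : C2 2 = 1 := rfl
  have h4 : ((k - 1 : ℕ) : ℝ) = (k : ℝ) - 1 := by
    rw [Nat.cast_sub (by omega), Nat.cast_one]
  have h5 : (k : ℝ) - 1 ≠ 0 := by
    have : (2 : ℝ) ≤ k := by exact_mod_cast hk
    linarith
  rw [h2, h3, Nat.cast_mul, Nat.cast_mul, h4]
  field_simp
  simp

/-- `v = k`: one block with all points (`self_ks (hk) 1` gives `k ∈ KS k 1`; `nb_of_ks`, `count_nb`: one block), and `nb_triv`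
(`nb_add`): `q C2 k + 1` blocks, `beta_res_one`. So `k - 1 ∈ TS`. -/
theorem gt_one {k : ℕ} (hk : 3 ≤ k) (q : ℕ) :
    Nat.setGcd (TS k (1 + q * (k - 1)) (beta k (1 + q * (k - 1)))) ∣ k - 1 := by
  refine Nat.setGcd_dvd_of_mem ?_
  obtain ⟨c, hc⟩ := nb_of_ks (self_ks (k := k) (by omega) 1)
  have h1 := count_nb hc
  have h2 : 0 < k * (k - 1) := Nat.mul_pos (by omega) (by omega)
  have h3 : c = 1 := Nat.eq_of_mul_eq_mul_right h2 (by rw [h1, one_mul])
  subst h3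
  have h4 := nb_add hc (nb_triv (k := k) (by omega) q k)
  have h5 : k - 1 + 1 = k := by omega
  refine ⟨1 + q * C2 k, ?_, ?_⟩
  · rw [h5]
    exact h4
  · rw [h5, beta_res_one k q hk]
    have h6 : (3 : ℝ) ≤ k := by exact_mod_cast hk
    have h7 : (k : ℝ) - 1 ≠ 0 := by linarith
    have h8 : (k : ℝ) ≠ 0 := by linarith
    have h9 := Gt_C2_cast k
    push_cast
    rw [h9]
    field_simp
    ring

/-- `nb_six`, `nb_ten`, `nb_triv`, `nb_add`, `beta_four`: `beta C2 6 = 15 q + 6`,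
`beta C2 10 = 45 q + 18`, so `5` and `9` are in `TS`. -/
theorem gt_four (q : ℕ) : Nat.setGcd (TS 4 (3 * q + 2) (beta 4 (3 * q + 2))) = 1 := by
  have h6 : 5 ∈ TS 4 (3 * q + 2) (beta 4 (3 * q + 2)) := by
    have h1 := nb_add nb_six (nb_triv (k := 4) (by norm_num) q 6)
    have h2 : 2 + q * (4 - 1) = 3 * q + 2 := by omega
    rw [h2] at h1
    refine ⟨6 + q * C2 6, h1, ?_⟩
    rw [(beta_four q).2.2]
    have h3 : C2 6 = 15 := rfl
    rw [h3]
    push_cast
    ring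
  have h10 : 9 ∈ TS 4 (3 * q + 2) (beta 4 (3 * q + 2)) := by
    have h1 := nb_add nb_ten (nb_triv (k := 4) (by norm_num) q 10)
    have h2 : 2 + q * (4 - 1) = 3 * q + 2 := by omega
    rw [h2] at h1
    refine ⟨18 + q * C2 10, h1, ?_⟩
    rw [(beta_four q).2.2]
    have h3 : C2 10 = 45 := rfl
    rw [h3]
    push_cast
    ring
  have h5 := Nat.dvd_gcd (Nat.setGcd_dvd_of_mem h6) (Nat.setGcd_dvd_of_mem h10)
  exact Nat.dvd_one.1 h5

end Pool.Agent.Helper69.QG
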