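import Pool.Agent.Helper69.QD.HoleC
import Pool.Agent.Helper69.QD.PX
import Pool.Agent.Helper69.QC.HolB
import Pool.Agent.Helper69.QC.Sub
import Pool.Agent.Helper69.QC.RsOne
import Pool.Agent.Helper53.BN.Infl

/-!
Project QG: designs with a given difference between the number of blocks and `a C2 v`, and holes of
arbitrary size.
-/

set_option autoImplicit false

namespace Pool.Agent.Helper69.QG

open Pool.Agent.Helper69.WV Pool.Agent.Helper53.BN Pool.Agent.Helper69.QB Pool.Agent.Helper69.QC

/-- There is a design on `v` points with `a C2 v + e` blocks. -/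
def LD (k l : ℕ) (a : ℝ) (v : ℕ) (e : ℝ) : Prop :=
  ∃ b : ℕ, NB k l v b ∧ (b : ℝ) = a * ((C2 v : ℕ) : ℝ) + e

/-- There is a group divisible design of type `w^n h^1` whose number of blocks is `a` times the
number of the pairs of points in different groups. -/
def TH (k l : ℕ) (a : ℝ) (n w h : ℕ) : Prop :=
  ∃ c : ℕ, DC k l c (hol n w h) ∧
    (c : ℝ) = a * (((C2 n : ℕ) : ℝ) * (w : ℝ) ^ 2 + (n : ℝ) * (w : ℝ) * (h : ℝ))

end Pool.Agent.Helper69.QG
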