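import Pool.Agent.Helper69.QG.Rs
import Mathlib.NumberTheory.FrobeniusNumber

/-!
Project QG, piece LG: large orders with the same greatest common divisor.
-/

set_option autoImplicit false

namespace Pool.Agent.Helper69.QG

open Pool.Agent.Helper69.WV Pool.Agent.Helper53.BN Pool.Agent.Helper69.QB Pool.Agent.Helper69.QC

/-- The orders `x + 1` for which `δ C2 (x + 1)` is a number of blocks (minus one). -/
def TS (k l : ℕ) (δ : ℝ) : Set ℕ := {x | LD k l δ (x + 1) 0}

/-- Multiplication with `q`: blow up the design on `M` points (`th_zero`, weight `q`) and put the design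
on `q` points on every group (`th_fill` with `w := 1`, `hol_small`). -/
theorem ld_mul {k l M q : ℕ} {δ : ℝ} (hk : 2 ≤ k) (hM : LD k l δ M 0) (hq : LD k l δ q 0)
    (hT : TD k q) : LD k l δ (M * q) 0 := by
  have h1 : TH k l δ M (q * 1) 0 := by
    rw [Nat.mul_one]
    exact th_zero hk hM hT
  have h2 : TH k l δ q 1 0 := by
    obtain ⟨c, hc, e⟩ := hq
    refine ⟨c, (hol_small (Nat.zero_le 1)).2 hc, ?_⟩
    rw [e]
    push_cast
    ring
  obtain ⟨c, hc, e⟩ := th_fill h1 h2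
  refine ⟨c, ?_, ?_⟩
  · have h3 := (hol_small (n := M * q) (h := 0 + 0) (Nat.zero_le 1)).1 hc
    simpa using h3
  · rw [e]
    push_cast
    ring

private theorem Lg_pow {k l q : ℕ} {δ : ℝ} (hk : 2 ≤ k) (hq : LD k l δ q 0)
    (hT : TD k q) {M : ℕ} (hM : LD k l δ M 0) (j : ℕ) : LD k l δ (M * q ^ j) 0 := by
  induction j with
  | zero => simpa using hM
  | succ j ih =>
    rw [pow_succ, ← Nat.mul_assoc]
    exact ld_mul hk ih hq hT

/-- The elements of `TS` which are `≥ B` have the same greatest common divisor. Proof: let `d` be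
the gcd of those `≥ B`, `d ∣ y` for all `y ∈ TS` with `y ≥ B`. For `x ∈ TS`, `M = x + 1`: the numbers
`M q^j - 1` are in `TS` (`ld_mul`) for all `j`, and `≥ B` for large `j` (if `1 ≤ M`), so `d` divides
`M q^j - 1` and `M q^(j+1) - 1`, hence `M q^j (q - 1)`, and `d` is prime to `M q^j`, so `d ∣ q - 1`, so
`q^j = 1 mod d`, and `d ∣ M - 1 = x`. (`Nat.dvd_setGcd_iff`, `Nat.dvd_antisymm`,
`Nat.setGcd_mono`.) -/
theorem setGcd_large {k l q : ℕ} {δ : ℝ} (hk : 2 ≤ k) (hq2 : 2 ≤ q) (hq : LD k l δ q 0)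
    (hT : TD k q) (B : ℕ) :
    Nat.setGcd {x | x ∈ TS k l δ ∧ B ≤ x} = Nat.setGcd (TS k l δ) := by
  refine Nat.dvd_antisymm ?_ (Nat.setGcd_mono fun x hx => hx.1)
  rw [Nat.dvd_setGcd_iff]
  intro x hx
  have hx' : LD k l δ (x + 1) 0 := hx
  have key : ∀ j : ℕ, B ≤ j →
      (x + 1) * q ^ j ≡ 1 [MOD Nat.setGcd {x | x ∈ TS k l δ ∧ B ≤ x}] := by
    intro j hj
    have h1 : j < q ^ j := Nat.lt_pow_self (by omega)
    have h2 : q ^ j ≤ (x + 1) * q ^ j := Nat.le_mul_of_pos_left _ (by omega)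
    have h3 : 1 ≤ (x + 1) * q ^ j := by omega
    have h4 : (x + 1) * q ^ j - 1 ∈ {x | x ∈ TS k l δ ∧ B ≤ x} := by
      refine ⟨?_, by omega⟩
      change LD k l δ ((x + 1) * q ^ j - 1 + 1) 0
      rw [Nat.sub_add_cancel h3]
      exact Lg_pow hk hq hT hx' j
    exact ((Nat.modEq_iff_dvd' h3).2 (Nat.setGcd_dvd_of_mem h4)).symm
  have h1 := key B le_rfl
  have h2 := key (B + 1) (by omega)
  have h3 : q ≡ 1 [MOD Nat.setGcd {x | x ∈ TS k l δ ∧ B ≤ x}] := by
    have h4 := h1.mul_right q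
    rw [Nat.mul_assoc, ← pow_succ, Nat.one_mul] at h4
    exact h4.symm.trans h2
  have h5 : x + 1 ≡ 1 [MOD Nat.setGcd {x | x ∈ TS k l δ ∧ B ≤ x}] := by
    have h6 := (h3.pow B).mul_left (x + 1)
    rw [one_pow, Nat.mul_one] at h6
    exact h6.symm.trans h1
  have h7 := (Nat.modEq_iff_dvd' (by omega : 1 ≤ x + 1)).1 h5.symm
  simpa using h7

end Pool.Agent.Helper69.QG
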