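import Pool.Agent.Helper69.QG.Rs

/-!
Project QG, piece ST: filling the groups and the hole.
-/

set_option autoImplicit false

namespace Pool.Agent.Helper69.QG

open Pool.Agent.Helper69.WV Pool.Agent.Helper53.BN Pool.Agent.Helper69.QB Pool.Agent.Helper69.QC

private theorem St_C2_cast (v : ℕ) : ((C2 v : ℕ) : ℝ) = (v : ℝ) * ((v : ℝ) - 1) / 2 := by
  have h : C2 v = v.choose 2 := (Nat.choose_two_right v).symm
  rw [h, Nat.cast_choose_two]

/-- A design on `t w + 1` points on every group together with one point of the hole, and a design on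
the hole (`fillH` with `w := 1`, `hol_small`, `closeH`, as in `core_design` of `Helper69/QD/Core.lean`).
The number of blocks is
`δ (C2 N (t w)^2 + N t w (h - 1)) + N (δ C2 (t w + 1) + f) + δ C2 h + e =
δ C2 (N t w + h) + e + N f`. -/
theorem ld_step {k l N x h : ℕ} {δ e f : ℝ} (hh : 1 ≤ h) (hT : TH k l δ N x (h - 1))
    (hg : LD k l δ (x + 1) f) (hL : LD k l δ h e) : LD k l δ (N * x + h) (e + N * f) := by
  obtain ⟨c1, hc1, e1⟩ := hT
  obtain ⟨c2, hc2, e2⟩ := hg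
  obtain ⟨c3, hc3, e3⟩ := hL
  obtain ⟨g, rfl⟩ : ∃ g, h = g + 1 := ⟨h - 1, by omega⟩
  rw [Nat.add_sub_cancel] at hc1 e1
  have hc1' : DC k l c1 (hol N (x * 1) g) := by
    rw [mul_one]
    exact hc1
  have h2 := closeH (fillH hc1' ((hol_small le_rfl).2 hc2)) hc3
  refine ⟨_, h2, ?_⟩
  have h3 := St_C2_cast N
  have h4 := St_C2_cast (x + 1)
  have h5 := St_C2_cast (g + 1)
  have h6 := St_C2_cast (N * x + (g + 1))
  push_cast at h4 h5 h6 e1 e2 e3 ⊢
  rw [e1, e2, e3, h3, h4, h5, h6]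
  ring

/-- Designs on `t w + 1` points: `t ∈ RS m 1 w` and `w + 1 ∈ KS m 1` give a design on `t w + 1` points
with concurrence one and block size `m`; it has `Q0` blocks with `Q0 m (m - 1) = (t w + 1) t w`
(`count_nb`), so `i ≤ Q0` if `i m^2 ≤ t^2` (and `1 ≤ w`). `i` of its blocks are replaced by the design with `s'`
blocks, the other ones by the design with `s` blocks: if `s ≤ s'` this is `subst` with `s0 = s`, `s1 = s'`, and if
`s' ≤ s` it is `subst` with `s0 = s'`, `s1 = s` and `Q0 - i` instead of `i`. -/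
theorem ld_flex {k l m w t s s' i : ℕ} {δ : ℝ} (hm : 2 ≤ m) (hw0 : 0 < w) (hw : w + 1 ∈ KS m 1)
    (ht : t ∈ RS m 1 w) (hs : NB k l m s) (hs' : NB k l m s')
    (he : (s : ℝ) = δ * ((C2 m : ℕ) : ℝ)) (hi : i * m ^ 2 ≤ t ^ 2) :
    LD k l δ (t * w + 1) ((i : ℝ) * ((s' : ℝ) - s)) := by
  have htwK : t * w + 1 ∈ KS m 1 := ks_of_rs (fill1 glue) ht hw
  obtain ⟨Q0, hQ0⟩ := nb_of_ks htwK
  have hcnt := count_nb hQ0
  rw [Nat.add_sub_cancel] at hcnt
  have hiQ : i ≤ Q0 := by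
    have h1 : i * m ^ 2 ≤ Q0 * m ^ 2 := by
      calc i * m ^ 2 ≤ t ^ 2 := hi
        _ ≤ (t * w) ^ 2 := Nat.pow_le_pow_left (Nat.le_mul_of_pos_right t hw0) 2
        _ ≤ (t * w + 1) * (t * w) := by
            rw [sq]
            exact Nat.mul_le_mul_right _ (Nat.le_succ _)
        _ = Q0 * (m * (m - 1)) := hcnt.symm
        _ ≤ Q0 * (m * m) := Nat.mul_le_mul_left _ (Nat.mul_le_mul_left _ (Nat.sub_le _ _))
        _ = Q0 * m ^ 2 := by ring
    exact Nat.le_of_mul_le_mul_right h1 (pow_pos (by omega) 2)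
  have hQr : (Q0 : ℝ) * ((C2 m : ℕ) : ℝ) = ((C2 (t * w + 1) : ℕ) : ℝ) := by
    have h3 : ((Q0 * (m * (m - 1)) : ℕ) : ℝ) = (((t * w + 1) * (t * w) : ℕ) : ℝ) := by rw [hcnt]
    rw [St_C2_cast, St_C2_cast]
    push_cast [Nat.cast_sub (by omega : 1 ≤ m)] at h3 ⊢
    linear_combination (1 / 2 : ℝ) * h3
  rcases le_total s s' with hss | hss
  · refine ⟨_, subst hQ0 hs hs' hss hiQ, ?_⟩
    push_cast [Nat.cast_sub hss]
    rw [← hQr, he]
    ring
  · refine ⟨_, subst hQ0 hs' hs hss (Nat.sub_le Q0 i), ?_⟩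
    push_cast [Nat.cast_sub hss, Nat.cast_sub hiQ]
    rw [← hQr, he]
    ring

end Pool.Agent.Helper69.QG
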