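import Pool.Agent.Helper69.QG.Wt
import Pool.Agent.Helper69.QG.Lg
import Pool.Agent.Helper69.QG.St

/-!
Project QG: every design on `h` points is contained in designs on `W t + h` points.
-/

set_option autoImplicit false

namespace Pool.Agent.Helper69.QG

open Pool.Agent.Helper69.WV Pool.Agent.Helper53.BN Pool.Agent.Helper69.QB Pool.Agent.Helper69.QC

/-- The types `w^N x^1` and `w^N 0^1` for all large multiples `N` of `M = x + 1`. -/
theorem th_multiples {k l m w x n1 : ℕ} {δ : ℝ} (hk : 2 ≤ k) (hm : 2 ≤ m) (hw0 : 0 < w)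
    (hwK : w + 1 ∈ KS m 1) (hTw : TD k w) (hn1 : ∀ t, n1 ≤ t → t ∈ RS m 1 w)
    (hs : LD k l δ m 0) (hx1 : 1 ≤ x) (hx : LD k l δ (x + 1) 0) (hTx : TD (w + 1) (x + 1)) :
    ∃ a0, ∀ a, a0 ≤ a → TH k l δ ((x + 1) * a) w x := by
  obtain ⟨nM, hnM⟩ := hTD (x + 1 + 1)
  refine ⟨nM + n1 + 1, fun a ha => ?_⟩
  have h1 : TH k l δ (x + 1) w (x + 1 - 1) :=
    th_of_tx hw0 (by omega) hx (ld_ks hm hwK hs) hTx
  rw [Nat.add_sub_cancel] at h1
  have h2 : TH k l δ (x + 1) w 0 := th_zero hk hx hTw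
  have ha0 : 0 < a := by omega
  have h3 : TH k l δ (x + 1) (a * w) (∑ j : Fin a, if j = ⟨0, ha0⟩ then x else 0) := by
    refine th_trunc (by omega) (hnM a (by omega)) _ (fun j => ?_)
    split_ifs
    · exact h1
    · exact h2
  rw [Finset.sum_ite_eq' Finset.univ, if_pos (Finset.mem_univ _)] at h3
  have h4 : TH k l δ a w 0 := th_rs hm hwK (hn1 a (by omega)) hs
  exact th_fill h3 h4

theorem ext_gen {k l m s s' : ℕ} {δ : ℝ} (hk : 2 ≤ k) (hm : 2 ≤ m) (hs : NB k l m s)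
    (hs' : NB k l m s') (he : (s : ℝ) = δ * ((C2 m : ℕ) : ℝ)) :
    ∃ W N h0 : ℕ, 0 < W ∧ 0 < N ∧ Nat.setGcd (TS k l δ) ∣ W ∧
      ∀ h, h0 ≤ h → Nat.setGcd (TS k l δ) ∣ h - 1 →
      ∃ t0, ∀ t, t0 ≤ t → ∀ e : ℝ, LD k l δ h e → ∀ i : ℕ, i * m ^ 2 ≤ t ^ 2 →
        LD k l δ (W * t + h) (e + N * ((i : ℝ) * ((s' : ℝ) - s))) := by
  have hsL : LD k l δ m 0 := ⟨s, hs, by rw [he, add_zero]⟩
  obtain ⟨nk, hnk⟩ := hTD k
  obtain ⟨q, hqp, hqB, -, -, hqK, -, -, n1, hn1⟩ := rs_one m hm 2 (nk + 3) two_pos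
  set w : ℕ := q - 1 with hw
  have hw0 : 0 < w := by omega
  have hqw : w + 1 = q := by omega
  have hwK : w + 1 ∈ KS m 1 := by rwa [hqw]
  have hqL : LD k l δ q 0 := ld_ks hm hqK hsL
  obtain ⟨nw, hnw⟩ := hTD (w + 1)
  obtain ⟨T, n0, hTS, hT⟩ :=
    Nat.exists_mem_span_nat_finset_of_ge {x | x ∈ TS k l δ ∧ nw + 1 ≤ x}
  rw [setGcd_large hk (by omega) hqL (hnk q (by omega)) (nw + 1)] at hT
  have hmul : ∀ x ∈ T, ∃ a0, ∀ a, a0 ≤ a → TH k l δ ((x + 1) * a) w x := by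
    intro x hx
    have h1 := hTS hx
    exact th_multiples hk hm hw0 hwK (hnk w (by omega)) hn1 hsL
      (le_trans (Nat.le_add_left 1 nw) h1.2) h1.1 (hnw (x + 1) (by have := h1.2; omega))
  choose! a0 ha0 using hmul
  set a : ℕ := ∑ x ∈ T, a0 x + n1 + 2 with ha
  set N : ℕ := (∏ x ∈ T, (x + 1)) * a with hN
  have hprod : 0 < ∏ x ∈ T, (x + 1) := Finset.prod_pos fun x _ => Nat.succ_pos x
  have haN : a ≤ N := Nat.le_mul_of_pos_left a hprod
  have hNT : ∀ x ∈ (T : Set ℕ), TH k l δ N w x := by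
    intro x hx
    have hx' : x ∈ T := hx
    have h1 : N = (x + 1) * ((∏ y ∈ T.erase x, (y + 1)) * a) := by
      rw [hN, ← Finset.mul_prod_erase T _ hx', mul_assoc]
    rw [h1]
    refine ha0 x hx' _ ?_
    have h2 : 0 < ∏ y ∈ T.erase x, (y + 1) := Finset.prod_pos fun y _ => Nat.succ_pos y
    have h3 : a0 x ≤ ∑ x ∈ T, a0 x := Finset.single_le_sum (fun _ _ => Nat.zero_le _) hx'
    have h4 : a ≤ (∏ y ∈ T.erase x, (y + 1)) * a := Nat.le_mul_of_pos_left a h2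
    omega
  have hN0 : TH k l δ N w 0 := th_rs hm hwK (hn1 N (by omega)) hsL
  have hwT : w ∈ TS k l δ := by
    change LD k l δ (w + 1) 0
    rw [hqw]
    exact hqL
  refine ⟨N * w, N, n0 + 1, Nat.mul_pos (by omega) hw0, by omega,
    (Nat.setGcd_dvd_of_mem hwT).trans (Dvd.intro_left N rfl), fun h hh hd => ?_⟩
  obtain ⟨t0, ht0⟩ := th_closure (by omega : 2 ≤ N) (T : Set ℕ) hNT hN0 (h - 1)
    (hT (h - 1) (by omega) hd)
  refine ⟨t0 + n1, fun t ht e hL i hi => ?_⟩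
  have h1 := ld_step (by omega) (ht0 t (by omega))
    (ld_flex hm hw0 hwK (hn1 t (by omega)) hs hs' he hi) hL
  have h2 : N * w * t + h = N * (t * w) + h := by ring
  rw [h2]
  exact h1

end Pool.Agent.Helper69.QG
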