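import Pool.Agent.Helper69.QG.Th

/-!
Project QG, piece RS: group divisible designs from pairwise balanced designs with one block size.
-/

set_option autoImplicit false

namespace Pool.Agent.Helper69.QG

open Pool.Agent.Helper69.WV Pool.Agent.Helper53.BN Pool.Agent.Helper69.QB Pool.Agent.Helper69.QC

/-- The number `Q` of blocks of a group divisible design with concurrence one and block size `m` of
type `w^a`: `Q m (m - 1) = a (a - 1) w^2`. Proof: fill the groups with the design on `w + 1` points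
(`fillH` with `w := 1`, or `fillC`, and `hol_small`, or `tf1` of `Helper53/BN/TF.lean`; see `core_design` in `Helper69/QD/Core.lean`), apply
`count_nb` to the result (a design on `a w + 1` points with `Q + a Qw` blocks) and to the design on `w + 1`
points with `Qw` blocks, and subtract. (Or count directly as in `count_nb`.) -/
theorem count_rs {m a w Q : ℕ} (hm : 2 ≤ m) (hw : w + 1 ∈ KS m 1)
    (hQ : DC m 1 Q (hol a w 0)) : Q * (m * (m - 1)) = a * (a - 1) * w ^ 2 := by
  have h := count_hol hQ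
  simpa using h

private theorem Rs_sub_one (n : ℕ) : ((n * (n - 1) : ℕ) : ℝ) = (n : ℝ) * ((n : ℝ) - 1) := by
  rcases n with - | n
  · simp
  · rw [Nat.add_sub_cancel]
    push_cast
    ring

private theorem Rs_C2_cast (v : ℕ) : ((C2 v : ℕ) : ℝ) = (v : ℝ) * ((v : ℝ) - 1) / 2 := by
  unfold C2
  rw [Nat.cast_div (even_iff_two_dvd.1 (Nat.even_mul_pred_self v)) (by norm_num), Rs_sub_one]
  norm_num

private theorem Rs_c2 {m Q N : ℕ} (h : Q * (m * (m - 1)) = N) :
    (Q : ℝ) * ((C2 m : ℕ) : ℝ) = (N : ℝ) / 2 := by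
  rw [Rs_C2_cast, ← h, Nat.cast_mul, Rs_sub_one]
  ring

/-- From `a ∈ RS m 1 w` we get a design `DC m 1 Q (hol a w 0)` (`Q` = the number of its blocks,
`hol_zero`), and replace every block by the design on `m` points with `δ C2 m` blocks (`subst` with
`i = 0`), number of blocks `Q δ C2 m = δ C2 a w^2` (`count_rs`). -/
theorem th_rs {k l m a w : ℕ} {δ : ℝ} (hm : 2 ≤ m) (hw : w + 1 ∈ KS m 1) (ha : a ∈ RS m 1 w)
    (hs : LD k l δ m 0) : TH k l δ a w 0 := by
  obtain ⟨Q, hQ⟩ := DD.dc ha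
  obtain ⟨b, hb, hb'⟩ := hs
  have hQ' : DC m 1 Q (hol a w 0) := Pool.Agent.Helper69.QC.hol_zero.2 hQ
  have h1 := subst (i := 0) hQ' hb hb le_rfl (Nat.zero_le _)
  refine ⟨_, h1, ?_⟩
  have h2 := Rs_c2 (count_rs hm hw hQ')
  rw [Nat.cast_mul, Rs_sub_one, Nat.cast_pow] at h2
  rw [Rs_C2_cast a, Nat.zero_mul, Nat.add_zero, Nat.cast_mul, hb', Nat.cast_zero]
  linear_combination δ * h2

/-- A design on `v` points with concurrence one and block size `m` (`nb_of_ks`, `count_nb`), whose
blocks are replaced by the design on `m` points with `δ C2 m` blocks. -/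
theorem ld_ks {k l m v : ℕ} {δ : ℝ} (hm : 2 ≤ m) (hv : v ∈ KS m 1) (hs : LD k l δ m 0) :
    LD k l δ v 0 := by
  obtain ⟨Q, hQ⟩ := nb_of_ks hv
  obtain ⟨b, hb, hb'⟩ := hs
  have h1 := subst (i := 0) hQ hb hb le_rfl (Nat.zero_le _)
  refine ⟨_, h1, ?_⟩
  have h2 := Rs_c2 (count_nb hQ)
  rw [Rs_sub_one] at h2
  rw [Rs_C2_cast v, Nat.zero_mul, Nat.add_zero, Nat.cast_mul, hb']
  linear_combination δ * h2

end Pool.Agent.Helper69.QG
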