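import Pool.Agent.Helper69.QG.Defs

/-!
Project QG, piece TH: the first group divisible designs with a given density.
-/

set_option autoImplicit false

namespace Pool.Agent.Helper69.QG

open Pool.Agent.Helper69.WV Pool.Agent.Helper53.BN Pool.Agent.Helper69.QB Pool.Agent.Helper69.QC

private theorem Th_C2_cast (v : ℕ) : ((C2 v : ℕ) : ℝ) = (v : ℝ) * ((v : ℝ) - 1) / 2 := by
  have h : C2 v = v.choose 2 := (Nat.choose_two_right v).symm
  rw [h, Nat.cast_choose_two]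

/-- `fillH`; the number of blocks is `c + n c'`, and with `C2_cast`:
`C2 (n a) w^2 = C2 n (a w)^2 + n C2 a w^2`. -/
theorem th_fill {k l n a w h s : ℕ} {δ : ℝ} (h1 : TH k l δ n (a * w) h) (h2 : TH k l δ a w s) :
    TH k l δ (n * a) w (h + s) := by
  obtain ⟨c1, hc1, e1⟩ := h1
  obtain ⟨c2, hc2, e2⟩ := h2
  refine ⟨c1 + n * c2, fillH hc1 hc2, ?_⟩
  have h3 := Th_C2_cast n
  have h4 := Th_C2_cast a
  have h5 := Th_C2_cast (n * a)
  push_cast at h5 e1 ⊢
  rw [e1, e2, h3, h4, h5]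
  ring

/-- `holeGroupC` with `t = M`; the number of blocks is `(M^2 - M) c1 + w c2` with
`c1 = δ C2 (w + 1)`, `c2 = δ C2 M`, which is `δ (C2 M w^2 + M w (M - 1))`. -/
theorem th_of_tx {k l w M : ℕ} {δ : ℝ} (hw0 : 0 < w) (hM2 : 2 ≤ M) (hM : LD k l δ M 0)
    (hw : LD k l δ (w + 1) 0) (hTM : TD (w + 1) M) : TH k l δ M w (M - 1) := by
  obtain ⟨c2, hc2, e2⟩ := hM
  obtain ⟨c1, hc1, e1⟩ := hw
  refine ⟨(M ^ 2 - M) * c1 + w * c2, Pool.Agent.Helper69.QD.holeGroupC hw0 hc1 hc2 (by omega) hTM, ?_⟩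
  have h3 := Th_C2_cast M
  have h4 := Th_C2_cast (w + 1)
  have h6 : M ≤ M ^ 2 := Nat.le_self_pow (by norm_num) M
  have h7 : 1 ≤ M := by omega
  push_cast [Nat.cast_sub h6, Nat.cast_sub h7] at h4 ⊢
  rw [e1, e2, h3, h4]
  ring

/-- A group divisible design without hole (`DC.congr` with `Equiv.sumEmpty`; compare
`truncC_pieceR` in `Helper53/BN/Trunc.lean`). -/
theorem hol_zero {k l n w c : ℕ} (h : NR k l w n c) : DC k l c (hol n w 0) := by
  exact Pool.Agent.Helper69.QC.hol_zero.2 h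

/-- `nr_of_nb` and `hol_zero`: the number of blocks is `w^2 c`. -/
theorem th_zero {k l w M : ℕ} {δ : ℝ} (hk : 2 ≤ k) (hM : LD k l δ M 0) (hT : TD k w) :
    TH k l δ M w 0 := by
  obtain ⟨c, hc, e⟩ := hM
  refine ⟨w ^ 2 * c, hol_zero (nr_of_nb hk hc hT), ?_⟩
  push_cast
  rw [e]
  ring

end Pool.Agent.Helper69.QG
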