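import Pool.Agent.Helper69.QG.Ext
import Pool.Agent.Helper69.QC.T3
import Pool.Agent.Helper69.QC.Local

/-!
Project QG, piece TC: all numbers of blocks near the upper end.
-/

set_option autoImplicit false

namespace Pool.Agent.Helper69.QG

open Pool.Agent.Helper69.WV Pool.Agent.Helper53.BN Pool.Agent.Helper69.QB Pool.Agent.Helper69.QC

private theorem TopC_even {k l v b : ℕ} (hk : 2 ≤ k) (hko : Odd k) (hv : 0 < v)
    (h : NB k l v b) : Even (l * (v - 1)) := by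
  by_contra hc
  have h2 : 2 ∣ k - 1 := (hko.tsub_odd odd_one).two_dvd
  have h1 := nb_local (d := b * C2 k + 1) hk hv h (fun e _ hd => by
    have h3 : 2 ∣ 2 * e + l * (v - 1) := h2.trans hd
    exact hc (even_iff_two_dvd.2 ((Nat.dvd_add_right (Dvd.intro _ rfl)).1 h3)))
  have h3 : (b * C2 k + 1) * 1 ≤ (b * C2 k + 1) * v := Nat.mul_le_mul_left _ hv
  omega

/-- If `k` is odd then `l x` is even for every `x ∈ TS k l δ` (a design on `x + 1` points exists: for a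
point `y`, `l x = ∑ b, n (k - n)`, `n` the multiplicity of `y` in `b`, and `n (k - n)` is even for odd
`k`; look for a lemma `adm_of_nb` or similar, or see the proof of `nb_local` in `Helper69/QC/Local.lean`).
So if `l` is odd all `x` are even, the gcd is even, `v - 1` is even. -/
theorem adm_of_gcd {k l v : ℕ} {δ : ℝ} (hk : 2 ≤ k) (h : Nat.setGcd (TS k l δ) ∣ v - 1) :
    Adm k l v := by
  rcases Nat.even_or_odd k with hke | hko
  · exact Or.inl hke
  · right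
    by_cases hle : Even l
    · exact hle.mul_right _
    · refine Even.mul_left ?_ l
      have h1 : ∀ x ∈ TS k l δ, 2 ∣ x := by
        rintro x ⟨b, hb, -⟩
        have h2 := TopC_even hk hko (Nat.succ_pos x) hb
        rw [show x.succ - 1 = x from rfl] at h2
        rcases Nat.even_mul.1 h2 with h3 | h3
        · exact absurd h3 hle
        · exact h3.two_dvd
      exact even_iff_two_dvd.2 (((Nat.dvd_setGcd_iff).2 h1).trans h)

private theorem TopC_mono {a b : ℕ} (h : a ≤ b) : C2 a ≤ C2 b := by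
  unfold C2
  exact Nat.div_le_div_right (Nat.mul_le_mul h (Nat.sub_le_sub_right h 1))

/-- All numbers in the middle are numbers of blocks. -/
private theorem TopC_mid {k l : ℕ} (hk : 2 ≤ k) {C1 v1 h b : ℕ} (hfix : ∀ v, v1 ≤ v → Adm k l v →
    ∀ b : ℕ, (l : ℝ) / (C2 k : ℝ) * ((C2 v : ℕ) : ℝ) + err0 k v C1 ≤ b →
    (b : ℝ) ≤ beta k l * ((C2 v : ℕ) : ℝ) - err1 k l v C1 → NB k l v b)
    (h1 : 1 ≤ h) (hv : v1 ≤ h) (hg : Nat.setGcd (TS k l (beta k l)) ∣ h - 1)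
    (hb1 : (l : ℝ) / (C2 k : ℝ) * ((C2 h : ℕ) : ℝ) + C1 * h ≤ b)
    (hb2 : (b : ℝ) ≤ beta k l * ((C2 h : ℕ) : ℝ) - C1 * h) : NB k l h b := by
  have e : (C1 : ℝ) ≤ C1 * h := by
    have h2 : C1 * 1 ≤ C1 * h := Nat.mul_le_mul_left _ h1
    rw [mul_one] at h2
    exact_mod_cast h2
  have e0 : (err0 k h C1 : ℝ) ≤ C1 * h := by
    unfold err0
    split_ifs
    · exact e
    · push_cast
      exact le_rfl
  have e1 : (err1 k l h C1 : ℝ) ≤ C1 * h := by
    unfold err1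
    split_ifs
    · exact e
    · push_cast
      exact le_rfl
  exact hfix h hv (adm_of_gcd hk hg) b (by linarith) (by linarith)

/-- Proof. `g` = the gcd. `perfect_pair k l hk hl 2` gives `m`, `s0 < s1`; `ext_gen` with `s = s1`,
`s' = s0`, `δ = beta k l` gives `W`, `N`, `h0`. `D = s1 - s0`, `Δ = N D > 0`. `C1`, `v1` from `fixed_sharp`
(for `v ≥ v1`, `Adm k l v`, all `b` with `l / C2 k * C2 v + C1 v ≤ b ≤ beta C2 v - C1 v` are numbers of
blocks, since `err0`, `err1 ≤ C1 v` for `1 ≤ v`). By `lt_beta` and `quad` there is `H ≥ max h0 v1`, `H ≥ 1`, such that for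
`h ≥ H`: `l / C2 k * C2 h + C1 h + Δ + 1 ≤ beta C2 h - C1 h`. Let `B h` be the floor of `beta C2 h - C1 h`, so for `h ≥ H`, `g ∣ h - 1`,
all `b` with `B h - Δ < b ≤ B h` are numbers of blocks of `h` (`adm_of_gcd`). `K = H + W`; `t1 ≥ 1` a common bound of the
`t0` of `ext_gen` for the `h` with `H ≤ h < K` and `g ∣ h - 1`. `C` a natural number `≥ beta C2 K`,
`v₀ = K + W T` with `T ≥ t1` such that `(A (W t + K)) m^2 ≤ t^2` for `t ≥ T` (`quad`).
Let `v ≥ v₀`, `g ∣ v - 1`. There is `h` with `H ≤ h < K` and `v = W t + h`, `t ≥ T`; `g ∣ h - 1` since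
`g ∣ W`. Apply `ext_gen` with `i = 0` to the design with `B h` blocks: it gives a natural number `b'` with
`b' = beta C2 v + (B h - beta C2 h)`. Let `b` be given, `beta C2 v - A v ≤ b ≤ beta C2 v - C`. Then `b ≤ b'` since
`beta C2 h - B h ≤ beta C2 h ≤ C`; let
`b' - b = Δ i + r` with `r < Δ`. Then `i ≤ b' - b ≤ A v` , so `i m^2 ≤ t^2`. `ext_gen` with the design with `B h - r`
blocks (`e = B h - r - beta C2 h`) gives a design with `beta C2 v + e - N i D = b' - r - Δ i = b` blocks. -/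
theorem top_cofinite (k l : ℕ) (hk : 3 ≤ k) (hl : 2 ≤ l) (A : ℕ) : ∃ C v₀ : ℕ, ∀ v, v₀ ≤ v →
    Nat.setGcd (TS k l (beta k l)) ∣ v - 1 → ∀ b : ℕ,
    beta k l * ((C2 v : ℕ) : ℝ) - (A : ℝ) * v ≤ b → (b : ℝ) ≤ beta k l * ((C2 v : ℕ) : ℝ) - C →
    NB k l v b := by
  obtain ⟨m, s0, s1, -, hm2, -, hs0, hs1, hlt, -, he1⟩ := perfect_pair k l hk hl 2
  obtain ⟨W, N, h0, hW, hN, hgW, hext⟩ := ext_gen (by omega) hm2 hs1 hs0 he1
  obtain ⟨C1, v1, hfix⟩ := fixed_sharp k l hk hl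
  choose! t0 ht0 using hext
  set g : ℕ := Nat.setGcd (TS k l (beta k l)) with hg
  obtain ⟨D, hD⟩ := Nat.exists_eq_add_of_lt hlt
  set Δ : ℕ := N * (D + 1) with hΔ
  have hΔp : 0 < Δ := Nat.mul_pos hN (Nat.succ_pos D)
  have hs10 : (s0 : ℝ) - s1 = -((D + 1 : ℕ) : ℝ) := by
    rw [hD]
    push_cast
    ring
  have hlb := lt_beta k l hk hl
  set γ : ℝ := beta k l - (l : ℝ) / (C2 k : ℝ) with hγ
  have hγp : 0 < γ := by linarith
  have hβ0 : 0 ≤ beta k l := by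
    have h1 : (0 : ℝ) ≤ (l : ℝ) / (C2 k : ℝ) := by positivity
    linarith
  obtain ⟨H1, hH1⟩ := quad (γ / 2) (2 * C1 + γ / 2) (Δ + 1) (by linarith)
  set H : ℕ := h0 + v1 + H1 + 1 with hH
  -- the numbers of blocks near the upper end of the points `h`
  set Bf : ℕ → ℕ := fun h => ⌊beta k l * ((C2 h : ℕ) : ℝ) - C1 * h⌋₊ with hBf
  have hgap : ∀ h, H ≤ h → (l : ℝ) / (C2 k : ℝ) * ((C2 h : ℕ) : ℝ) + C1 * h + Δ + 1 ≤
      beta k l * ((C2 h : ℕ) : ℝ) - C1 * h := by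
    intro h hh
    have h1 := hH1 h (by omega)
    have h2 : γ * ((C2 h : ℕ) : ℝ) = beta k l * ((C2 h : ℕ) : ℝ) -
        (l : ℝ) / (C2 k : ℝ) * ((C2 h : ℕ) : ℝ) := by
      rw [hγ]
      ring
    have h3 : γ * ((C2 h : ℕ) : ℝ) = γ / 2 * (h : ℝ) ^ 2 - γ / 2 * h := by
      rw [C2_cast]
      ring
    have h4 : (2 * (C1 : ℝ) + γ / 2) * h = C1 * h + C1 * h + γ / 2 * h := by ring
    linarith
  have hlow0 : ∀ h : ℕ, (0 : ℝ) ≤ (l : ℝ) / (C2 k : ℝ) * ((C2 h : ℕ) : ℝ) + C1 * h := fun h => by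
    positivity
  have hB1 : ∀ h, H ≤ h → (Bf h : ℝ) ≤ beta k l * ((C2 h : ℕ) : ℝ) - C1 * h := by
    intro h hh
    have h1 := hgap h hh
    have h2 := hlow0 h
    have h3 : (0 : ℝ) ≤ Δ := Nat.cast_nonneg _
    exact Nat.floor_le (by linarith)
  have hB2 : ∀ h, beta k l * ((C2 h : ℕ) : ℝ) - C1 * h < Bf h + 1 := fun h => Nat.lt_floor_add_one _
  have hBΔ : ∀ h, H ≤ h → Δ ≤ Bf h := by
    intro h hh
    refine Nat.le_floor ?_
    have h1 := hgap h hh
    have h2 := hlow0 h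
    linarith
  have hBr : ∀ h, H ≤ h → g ∣ h - 1 → ∀ r, r < Δ → NB k l h (Bf h - r) := by
    intro h hh hgh r hr
    have h1 := hgap h hh
    have h2 := hB1 h hh
    have h3 := hB2 h
    have h4 : (r : ℝ) ≤ Δ := by exact_mod_cast hr.le
    have h5 := hBΔ h hh
    have h6 : ((Bf h - r : ℕ) : ℝ) = Bf h - r := by
      rw [Nat.cast_sub (by omega)]
    have h7 : (0 : ℝ) ≤ r := Nat.cast_nonneg _
    refine TopC_mid (by omega) hfix (by omega) (by omega) hgh ?_ ?_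
    · rw [h6]
      linarith
    · rw [h6]
      linarith
  set K : ℕ := H + W with hK
  set t1 : ℕ := ∑ h ∈ Finset.range K, t0 h with ht1
  have ht1' : ∀ h, h < K → t0 h ≤ t1 := fun h hh =>
    Finset.single_le_sum (fun _ _ => Nat.zero_le _) (Finset.mem_range.2 hh)
  obtain ⟨t2, ht2⟩ := quad 1 ((A * W * m ^ 2 : ℕ) : ℝ) ((A * K * m ^ 2 : ℕ) : ℝ) one_pos
  have hquad : ∀ t, t2 ≤ t → A * (W * t + K) * m ^ 2 ≤ t ^ 2 := by
    intro t ht
    have h1 := ht2 t ht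
    have h2 : ((A * W * m ^ 2 * t + A * K * m ^ 2 : ℕ) : ℝ) ≤ ((t ^ 2 : ℕ) : ℝ) := by
      push_cast at h1 ⊢
      linarith
    have h3 : A * W * m ^ 2 * t + A * K * m ^ 2 ≤ t ^ 2 := by exact_mod_cast h2
    calc A * (W * t + K) * m ^ 2 = A * W * m ^ 2 * t + A * K * m ^ 2 := by ring
      _ ≤ t ^ 2 := h3
  set T : ℕ := t1 + t2 with hT
  refine ⟨⌈beta k l * ((C2 K : ℕ) : ℝ)⌉₊, K + W * T, fun v hv hgv b hb1 hb2 => ?_⟩
  set t : ℕ := (v - H) / W with htd
  set h : ℕ := H + (v - H) % W with hhd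
  have hvt : v = W * t + h := by
    have h1 := Nat.div_add_mod (v - H) W
    rw [← htd] at h1
    omega
  have hhH : H ≤ h := Nat.le_add_right _ _
  have hhK : h < K := by
    have h1 := Nat.mod_lt (v - H) hW
    omega
  have htT : T ≤ t := by
    rw [htd, Nat.le_div_iff_mul_le hW, mul_comm]
    omega
  have hgh : g ∣ h - 1 := by
    have h1 : v - 1 = W * t + (h - 1) := by omega
    rw [h1] at hgv
    exact (Nat.dvd_add_right (hgW.mul_right t)).1 hgv
  have hstep := ht0 h (by omega) hgh t ((ht1' h hhK).trans (by omega))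
  have hr0 := hBr h hhH hgh
  -- the design with the largest number of blocks
  obtain ⟨b', -, hb'⟩ := hstep ((Bf h : ℝ) - beta k l * ((C2 h : ℕ) : ℝ))
    ⟨Bf h, by simpa using hr0 0 hΔp, by ring⟩ 0 (by simp)
  rw [← hvt] at hb'
  have hb'2 : (b' : ℝ) = beta k l * ((C2 v : ℕ) : ℝ) + (Bf h - beta k l * ((C2 h : ℕ) : ℝ)) := by
    rw [hb']
    push_cast
    ring
  have hCh : beta k l * ((C2 h : ℕ) : ℝ) ≤ ⌈beta k l * ((C2 K : ℕ) : ℝ)⌉₊ := by
    refine le_trans ?_ (Nat.le_ceil _)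
    refine mul_le_mul_of_nonneg_left ?_ hβ0
    exact_mod_cast TopC_mono hhK.le
  have hBh0 : (0 : ℝ) ≤ Bf h := Nat.cast_nonneg _
  have hbb : b ≤ b' := by
    have h1 : (b : ℝ) ≤ b' := by
      rw [hb'2]
      linarith
    exact_mod_cast h1
  obtain ⟨x, hx⟩ := Nat.exists_eq_add_of_le hbb
  have hxr : (x : ℝ) = b' - b := by
    rw [hx]
    push_cast
    ring
  have hxA : x ≤ A * (W * t + K) := by
    have h1 : (x : ℝ) ≤ ((A * v : ℕ) : ℝ) := by
      rw [hxr, hb'2]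
      have h2 := hB1 h hhH
      have h3 : (0 : ℝ) ≤ C1 * h := by positivity
      push_cast
      linarith
    have h2 : x ≤ A * v := by exact_mod_cast h1
    refine h2.trans (Nat.mul_le_mul_left _ ?_)
    omega
  set i : ℕ := x / Δ with hi
  set r : ℕ := x % Δ with hr
  have hxi : Δ * i + r = x := Nat.div_add_mod x Δ
  have hrΔ : r < Δ := Nat.mod_lt _ hΔp
  have him : i * m ^ 2 ≤ t ^ 2 := by
    refine le_trans ?_ (hquad t (by omega))
    refine Nat.mul_le_mul_right _ ?_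
    exact (Nat.div_le_self x Δ).trans hxA
  obtain ⟨b2, hb2n, hb2r⟩ := hstep (((Bf h - r : ℕ) : ℝ) - beta k l * ((C2 h : ℕ) : ℝ))
    ⟨Bf h - r, hr0 r hrΔ, by ring⟩ i him
  rw [← hvt] at hb2n hb2r
  have h6 : ((Bf h - r : ℕ) : ℝ) = Bf h - r := by
    have := hBΔ h hhH
    rw [Nat.cast_sub (by omega)]
  have h7 : (b2 : ℝ) = b := by
    rw [hb2r, h6, hs10]
    have h8 : (x : ℝ) = N * (D + 1) * i + r := by
      rw [← hxi, hΔ]
      push_cast
      ring
    have h9 : (b : ℝ) = b' - x := by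
      rw [hxr]
      ring
    rw [h9, h8, hb'2]
    push_cast
    ring
  have h8 : b2 = b := by exact_mod_cast h7
  rw [← h8]
  exact hb2n

end Pool.Agent.Helper69.QG
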