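import Pool.Agent.Helper69.QG.Defs

/-!
Project QG, piece TR: transversal designs with arbitrary weights in the last group.
-/

set_option autoImplicit false

namespace Pool.Agent.Helper69.QG

open Pool.Agent.Helper69.WV Pool.Agent.Helper53.BN Pool.Agent.Helper69.QB Pool.Agent.Helper69.QC

section

variable {m t w : ℕ} {ω : Fin t → ℕ}

/-- The column of a point. -/
private def Tr_col (m t w : ℕ) (ω : Fin t → ℕ) :
    (Fin m × (Fin t × Fin w)) ⊕ (Σ j, Fin (ω j)) → Fin (m + 1) :=
  Sum.elim (fun p => Fin.castSucc p.1) (fun _ => Fin.last m)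

/-- The symbol of a point. -/
private def Tr_sym (m t w : ℕ) (ω : Fin t → ℕ) :
    (Fin m × (Fin t × Fin w)) ⊕ (Σ j, Fin (ω j)) → Fin t :=
  Sum.elim (fun p => p.2.1) (fun a => a.1)

/-- The points of the piece of a row. -/
private def Tr_e (w : ℕ) (ω : Fin t → ℕ) (f : Fin (m + 1) → Fin t) :
    (Fin m × Fin w) ⊕ Fin (ω (f (Fin.last m))) →
      (Fin m × (Fin t × Fin w)) ⊕ (Σ j, Fin (ω j)) :=
  Sum.elim (fun p => Sum.inl (p.1, (f (Fin.castSucc p.1), p.2)))
    (fun a => Sum.inr ⟨f (Fin.last m), a⟩)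

private theorem Tr_col_ne (x y : (Fin m × (Fin t × Fin w)) ⊕ (Σ j, Fin (ω j)))
    (hxy : holT (Fin m) (Fin t × Fin w) (Σ j, Fin (ω j)) x ≠
      holT (Fin m) (Fin t × Fin w) (Σ j, Fin (ω j)) y) :
    Tr_col m t w ω x ≠ Tr_col m t w ω y := by
  rcases x with x | x <;> rcases y with y | y
  · simp only [holT, Sum.elim_inl, ne_eq, Option.some.injEq] at hxy
    simpa only [Tr_col, Sum.elim_inl, ne_eq, Fin.castSucc_inj] using hxy
  · simp [Tr_col, (Fin.castSucc_lt_last x.1).ne]
  · simpa [Tr_col] using (Fin.castSucc_lt_last y.1).ne'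
  · simp [holT] at hxy

private theorem Tr_mem (f : Fin (m + 1) → Fin t)
    (x : (Fin m × (Fin t × Fin w)) ⊕ (Σ j, Fin (ω j))) :
    (∃ x', Tr_e w ω f x' = x) ↔ f (Tr_col m t w ω x) = Tr_sym m t w ω x := by
  rcases x with x | ⟨j, a⟩
  · constructor
    · rintro ⟨x' | x', hx'⟩
      · simp only [Tr_e, Sum.elim_inl, Sum.inl.injEq] at hx'
        subst hx'
        simp [Tr_col, Tr_sym]
      · simp [Tr_e] at hx'
    · intro hf
      refine ⟨Sum.inl (x.1, x.2.2), ?_⟩
      simp only [Tr_col, Tr_sym, Sum.elim_inl] at hf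
      simp [Tr_e, hf]
  · constructor
    · rintro ⟨x' | x', hx'⟩
      · simp [Tr_e] at hx'
      · simp only [Tr_e, Sum.elim_inr, Sum.inr.injEq] at hx'
        exact congrArg Sigma.fst hx'
    · intro hf
      simp only [Tr_col, Tr_sym, Sum.elim_inr] at hf
      subst hf
      exact ⟨Sum.inr a, rfl⟩

private theorem Tr_inj (f : Fin (m + 1) → Fin t) : Function.Injective (Tr_e w ω f) := by
  rintro (x | x) (y | y) hxy
  · simp only [Tr_e, Sum.elim_inl, Sum.inl.injEq, Prod.mk.injEq] at hxy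
    exact congrArg Sum.inl (Prod.ext hxy.1 hxy.2.2)
  · simp [Tr_e] at hxy
  · simp [Tr_e] at hxy
  · simp only [Tr_e, Sum.elim_inr, Sum.inr.injEq, Sigma.mk.injEq, heq_eq_eq, true_and] at hxy
    exact congrArg Sum.inr hxy

private theorem Tr_group (f : Fin (m + 1) → Fin t)
    (x : (Fin m × Fin w) ⊕ Fin (ω (f (Fin.last m)))) :
    holT (Fin m) (Fin t × Fin w) (Σ j, Fin (ω j)) (Tr_e w ω f x) =
      hol m w (ω (f (Fin.last m))) x := by
  rcases x with x | x <;> rfl

/-- The number of the rows with a given last entry. -/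
private theorem Tr_card (hm : 2 ≤ m) (R : Set (Fin (m + 1) → Fin t))
    (hR : ∀ i j, i ≠ j → ∀ a b, ∃! f, f ∈ R ∧ f i = a ∧ f j = b)
    [Fintype {f // f ∈ R}] (j : Fin t) :
    (Finset.univ.filter fun b : {f // f ∈ R} => b.1 (Fin.last m) = j).card = t := by
  classical
  have h0 : (0 : Fin (m + 1)) ≠ Fin.last m := by
    intro h1
    have h2 := congrArg Fin.val h1
    simp at h2
    omega
  have h1 : (Finset.univ.filter fun b : {f // f ∈ R} => b.1 (Fin.last m) = j).card =
      (Finset.univ : Finset (Fin t)).card := by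
    refine Finset.card_bij (fun b _ => b.1 0) ?_ ?_ ?_
    · intro b hb
      exact Finset.mem_univ _
    · intro b hb b' hb' hbb
      have e1 := (Finset.mem_filter.1 hb).2
      have e2 := (Finset.mem_filter.1 hb').2
      obtain ⟨f, -, hu⟩ := hR _ _ h0 (b'.1 0) j
      apply Subtype.ext
      rw [hu b.1 ⟨b.2, hbb, e1⟩, hu b'.1 ⟨b'.2, rfl, e2⟩]
    · intro a _
      obtain ⟨f, ⟨hf, h1, h2⟩, -⟩ := hR _ _ h0 a j
      exact ⟨⟨f, hf⟩, Finset.mem_filter.2 ⟨Finset.mem_univ _, h2⟩, h1⟩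
  rw [h1]
  simp

end

/-- Transversal designs with weight `w` in the first `m` groups and weight `ω j` at the point `j` of the
last group. Compare `truncC` in `Helper53/BN/Trunc.lean` (the same proof, its private lemmas have to
be copied and changed) and `truncH` in `Helper69/QC/HolA.lean`. Proof: `glueC`, the pieces are indexed by the rows `f` of the
orthogonal array with `m + 1` columns over `Fin t` (`hT`), the row `f` carries the design
`hB (f (Fin.last m))` on the points `(g, (f g, a))`, `g < m`, `a : Fin w`, and the points of the hole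
over `f (Fin.last m)`. The hole is `Σ j, Fin (ω j)` first (it is equivalent to
`Fin (∑ j, ω j)` by `finSigmaFinEquiv`, use `DC.congr` or `holT_iff`). For every `j` there are `t` rows
with `f (Fin.last m) = j` (here `2 ≤ m` is used), so the number of blocks is `t ∑ j, c j`. -/
theorem truncW {k l m t w : ℕ} (hm : 2 ≤ m) (hT : TD (m + 1) t) (ω c : Fin t → ℕ)
    (hB : ∀ j, DC k l (c j) (hol m w (ω j))) :
    DC k l (t * ∑ j, c j) (hol m (t * w) (∑ j, ω j)) := by
  classical
  obtain ⟨R, hR⟩ := hT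
  have hfin : Fintype {f // f ∈ R} := Fintype.ofFinite _
  have hsum : ∑ b : {f // f ∈ R}, c (b.1 (Fin.last m)) = t * ∑ j, c j := by
    rw [← Finset.sum_fiberwise (Finset.univ : Finset {f // f ∈ R})
      (fun b => b.1 (Fin.last m)) (fun b => c (b.1 (Fin.last m))), Finset.mul_sum]
    refine Finset.sum_congr rfl fun j _ => ?_
    rw [Finset.sum_congr rfl (g := fun _ => c j), Finset.sum_const, Tr_card hm R hR j,
      smul_eq_mul]
    intro b hb
    rw [(Finset.mem_filter.1 hb).2]
  have hD : DC k l (t * ∑ j, c j) (holT (Fin m) (Fin t × Fin w) (Σ j, Fin (ω j))) := by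
    refine DC.cast (glueC (fun f : {f // f ∈ R} => hol m w (ω (f.1 (Fin.last m))))
      (fun f => Tr_e w ω f.1) (fun f => c (f.1 (Fin.last m))) (fun f => Tr_inj f.1) ?_ ?_ ?_) hsum
    · intro f
      exact hB _
    · intro x y hxy
      obtain ⟨f, ⟨hf, hfx, hfy⟩, huniq⟩ := hR _ _ (Tr_col_ne x y hxy)
        (Tr_sym m t w ω x) (Tr_sym m t w ω y)
      obtain ⟨x', hx'⟩ := (Tr_mem f x).2 hfx
      obtain ⟨y', hy'⟩ := (Tr_mem f y).2 hfy
      refine ⟨⟨f, hf⟩, ⟨x', y', hx', hy', ?_⟩, ?_⟩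
      · intro h2
        apply hxy
        rw [← hx', ← hy', Tr_group, Tr_group]
        exact h2
      · rintro ⟨g, hg⟩ ⟨x1, y1, hx1, hy1, -⟩
        apply Subtype.ext
        exact huniq g ⟨hg, (Tr_mem g x).1 ⟨x1, hx1⟩, (Tr_mem g y).1 ⟨y1, hy1⟩⟩
    · intro f x' y' hne
      rw [Tr_group, Tr_group]
      exact hne
  have h2 := holT_iff.1 hD
  have e1 : Nat.card (Fin m) = m := by simp
  have e2 : Nat.card (Fin t × Fin w) = t * w := by simp
  have e3 : Nat.card (Σ j, Fin (ω j)) = ∑ j, ω j := by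
    rw [Nat.card_eq_fintype_card]
    simp
  rw [e1, e2, e3] at h2
  exact h2

end Pool.Agent.Helper69.QG
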