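import Pool.Agent.Helper69.QG.Tr
import Pool.Agent.Helper69.QG.Th
import Mathlib.NumberTheory.FrobeniusNumber

/-!
Project QG, piece WT: holes whose size is a sum of given sizes.
-/

set_option autoImplicit false

namespace Pool.Agent.Helper69.QG

open Pool.Agent.Helper69.WV Pool.Agent.Helper53.BN Pool.Agent.Helper69.QB Pool.Agent.Helper69.QC

/-- `truncW`: choose `c j`; the number of blocks is `t ∑ c j = δ (C2 m (t w)^2 + m (t w) ∑ ω j)`. -/
theorem th_trunc {k l m t w : ℕ} {δ : ℝ} (hm : 2 ≤ m) (hT : TD (m + 1) t) (ω : Fin t → ℕ)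
    (hB : ∀ j, TH k l δ m w (ω j)) : TH k l δ m (t * w) (∑ j, ω j) := by
  choose c hc hcr using hB
  refine ⟨t * ∑ j, c j, truncW hm hT ω c hc, ?_⟩
  push_cast
  rw [Finset.sum_congr rfl fun j _ => hcr j, ← Finset.mul_sum, Finset.sum_add_distrib,
    Finset.sum_const, Finset.card_univ, Fintype.card_fin, nsmul_eq_mul, ← Finset.mul_sum]
  ring

private theorem Wt_list (S : Set ℕ) (x : ℕ) (hx : x ∈ Ideal.span S) :
    ∃ L : List ℕ, (∀ y ∈ L, y ∈ S) ∧ L.sum = x := by
  refine Submodule.span_induction (p := fun x _ => ∃ L : List ℕ, (∀ y ∈ L, y ∈ S) ∧ L.sum = x)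
    ?_ ?_ ?_ ?_ hx
  · intro y hy
    exact ⟨[y], by simpa using hy, by simp⟩
  · exact ⟨[], by simp, by simp⟩
  · rintro y z - - ⟨L, hL, hLs⟩ ⟨M, hM, hMs⟩
    refine ⟨L ++ M, fun u hu => ?_, by rw [List.sum_append, hLs, hMs]⟩
    rcases List.mem_append.1 hu with h | h
    · exact hL u h
    · exact hM u h
  · rintro r y - ⟨L, hL, hLs⟩
    induction r with
    | zero => exact ⟨[], by simp, by simp⟩
    | succ r ih =>
      obtain ⟨M, hM, hMs⟩ := ih
      refine ⟨L ++ M, fun u hu => ?_, by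
        rw [List.sum_append, hLs, hMs, smul_eq_mul, smul_eq_mul]
        ring⟩
      rcases List.mem_append.1 hu with h | h
      · exact hL u h
      · exact hM u h

private theorem Wt_sum (L : List ℕ) : ∀ t, L.length ≤ t →
    ∑ i ∈ Finset.range t, L.getD i 0 = L.sum := by
  induction L with
  | nil => intro t _; simp
  | cons a L ih =>
    intro t ht
    obtain ⟨t, rfl⟩ : ∃ t', t = t' + 1 := ⟨t - 1, by rw [List.length_cons] at ht; omega⟩
    rw [Finset.sum_range_succ', List.sum_cons, add_comm, List.getD_cons_zero]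
    simp only [List.getD_cons_succ]
    rw [ih t (by rw [List.length_cons] at ht; omega)]

/-- The size of the hole is a sum of elements of `S` (`Submodule` span over the natural numbers, as in
`Nat.exists_mem_span_nat_finset_of_ge`; it is the `AddSubmonoid.closure`). Proof: `x` is the sum of a
list `L` of elements of `S`
(`AddSubmonoid.exists_list_of_mem_closure`); for `t ≥ max L.length (n0)` (`n0` of `hTD (N + 1)`: transversal
designs `TD (N + 1) t` for all `t ≥ n0`) let `ω j` be the `j`-th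
element of `L`, and `0` for `j ≥ L.length`; `th_trunc`. -/
theorem th_closure {k l N w : ℕ} {δ : ℝ} (hN : 2 ≤ N) (S : Set ℕ) (h : ∀ x ∈ S, TH k l δ N w x)
    (h0 : TH k l δ N w 0) (x : ℕ) (hx : x ∈ Ideal.span S) :
    ∃ t0, ∀ t, t0 ≤ t → TH k l δ N (t * w) x := by
  obtain ⟨L, hL, hLs⟩ := Wt_list S x hx
  obtain ⟨n0, hn0⟩ := hTD (N + 1)
  refine ⟨max L.length n0, fun t ht => ?_⟩
  have h1 : TH k l δ N (t * w) (∑ j : Fin t, L.getD j 0) := by
    refine th_trunc hN (hn0 t ((le_max_right _ _).trans ht)) (fun j => L.getD j 0) fun j => ?_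
    by_cases hj : (j : ℕ) < L.length
    · rw [List.getD_eq_getElem _ _ hj]
      exact h _ (hL _ (List.getElem_mem hj))
    · rw [List.getD_eq_default _ _ (not_lt.1 hj)]
      exact h0
  rwa [Fin.sum_univ_eq_sum_range (fun i => L.getD i 0) t,
    Wt_sum L t ((le_max_left _ _).trans ht), hLs] at h1

end Pool.Agent.Helper69.QG
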